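import Pool.Agent.H93.PG.Targets
import Pool.Agent.H93.PF.Zp

/-!
# Power-free shifts: row IJD of the board pgs_modules (the indices along an orbit)
-/

set_option autoImplicit false

open MeasureTheory Filter Topology Finset Pool.Agent.H93.PF Pool.Agent.H93.PG

namespace Pool.Agent.H40.PG

theorem pf_IJD : T_IJD := by
  classical
  intro Y _ T L D _ y _ j s t ht hts hno
  have key : ∀ (S : Set Y) (a : ℤ), zp T (-a) (zp T s y) ∈ S ↔ s - a ∈ ob T S y := by
    intro S a
    rw [← zp_add, mem_ob]
    have : -a + s = s - a := by ring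
    rw [this]
  -- the time since the last visit
  have hla : la T (Bk T L D (j + 1)) (zp T s y) = (s - t).toNat := by
    unfold la
    apply le_antisymm
    · apply Nat.sInf_le
      show zp T (-(((s - t).toNat : ℕ) : ℤ)) (zp T s y) ∈ Bk T L D (j + 1)
      rw [key]
      have : s - (((s - t).toNat : ℕ) : ℤ) = t := by omega
      rw [this]
      exact ht
    · apply le_csInf
      · refine ⟨(s - t).toNat, ?_⟩
        show zp T (-(((s - t).toNat : ℕ) : ℤ)) (zp T s y) ∈ Bk T L D (j + 1)
        rw [key]
        have : s - (((s - t).toNat : ℕ) : ℤ) = t := by omega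
        rw [this]
        exact ht
      · intro a ha
        have ha' : zp T (-(a : ℤ)) (zp T s y) ∈ Bk T L D (j + 1) := ha
        rw [key] at ha'
        by_contra hlt
        push Not at hlt
        exact hno (s - (a : ℤ)) (by omega) (by omega) ha'
  show ij T L D j (zp T s y) = cnt (ob T (Bk T L D j) y) t s
  unfold ij cnt
  rw [hla]
  apply Finset.card_bij (fun (i : ℕ) _ => s - (i : ℤ))
  · intro i hi
    rw [Finset.mem_filter] at hi ⊢
    obtain ⟨h1, h2⟩ := hi
    rw [Finset.mem_range] at h1
    rw [key] at h2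
    refine ⟨?_, h2⟩
    rw [Finset.mem_Ioc]
    omega
  · intro i _ i' _ h
    have h' : s - (i : ℤ) = s - (i' : ℤ) := h
    omega
  · intro x hx
    rw [Finset.mem_filter, Finset.mem_Ioc] at hx
    obtain ⟨⟨h1, h2⟩, h3⟩ := hx
    refine ⟨(s - x).toNat, ?_, ?_⟩
    · rw [Finset.mem_filter]
      refine ⟨Finset.mem_range.2 (by omega), ?_⟩
      rw [key]
      have : s - (((s - x).toNat : ℕ) : ℤ) = x := by omega
      rw [this]
      exact h3
    · show s - (((s - x).toNat : ℕ) : ℤ) = x
      omega

end Pool.Agent.H40.PG
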